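import Pool.Agent.Helper21.FX.S
import Pool.Agent.Helper82.TM.FR
import Pool.Agent.Helper17.N9.N9F
import Pool.Agent.Helper17.N9.N9G
import Pool.Agent.Helper38.FI.FI
import Pool.Agent.Helper17.FU.N4
import Pool.Agent.Helper35.FX.RowP

/-!
MP_c75db0, Plan W, the invariance items in the fused machine: row G, the test of two forms (uses row P and the law of the nodes en_ok of row N4).
-/

set_option autoImplicit false
set_option exponentiation.threshold 60000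
noncomputable section
namespace Pool.Agent.Helper21.FX

open Matrix
open Pool.Agent.Helper86.C75 (Z)
open Pool.Agent.Helper86.CX (Cx andB psd1 M2)
open Pool.Agent.Helper86.CT (Mo KM)
open Pool.Agent.Helper90.KMO (UU UU_pos UUc_ne cz zv zv_p zv_mul andB_t)
open Pool.Agent.Helper90.KMT (PT)
open Pool.Agent.Helper90.C75 (Vt avg wtT)
open Pool.Agent.Helper90.K9 (pk pz pk_cast pz_congr pz_add)
open Pool.Agent.Helper62.TVM (V3m C9)
open Pool.Agent.Helper82.TST (Fr frR frS frK dtC adC nzC smC C9M hr_cong)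
open Pool.Agent.Helper82.FRD (jr ouR)
open Pool.Agent.Helper17.N9 (Kf KfM Tr Tl3 bsU Lc1 frU kE kNd fmJ OC1 OH1 r52 AI mI ef ndw lv3 RF PF
  VF BB cnI cnI_map cnI_leM cn_avgR Tl3_ok dgt dgt_eq toNat_pk hM hr_hM KfM_herm zoff zng
  zoff_le MR2 ef_apply)
open Pool.Agent.Helper17.N9.F1 (PF_nonneg PFh zv_zng)
open Pool.Agent.Helper17.N9.RG9 (gF gF_0 gF_1 PF_pz OH1_pk po)
open Pool.Agent.Helper17.PAK (PDz Bd sc)
open Pool.Agent.Helper91.TM (AT TP lfT)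
open Pool.Agent.Helper91.TMK (TOK TW)
open Pool.Agent.Helper91.TMK.TST (HK)
open Pool.Agent.Helper91.FU
open Pool.Agent.Helper6.MONO (V3)
open Pool.Agent.Helper6.MONO.W2 (Mt hr J1 rfJ)
open Pool.Agent.Helper38.FI (co hM_co)
open Finset

namespace RG

/-! ### leaves -/

theorem lv3_mp3 (f : ℕ → ℕ) (x : Tr (Tr (Tr ℕ))) (v : Vt 3) : lv3 (mp3 f x) v = f (lv3 x v) := by
  obtain ⟨⟨⟨u, i0⟩, i1⟩, i2⟩ := v
  fin_cases i0 <;> fin_cases i1 <;> fin_cases i2 <;> rfl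

theorem lv3_trE6 (C : ℕ) (E : E6) (v : Vt 3) : lv3 (trE6 C E) v =
    lfS C ⟨uc E.a.u v.1.1.2, uc E.b.u v.1.1.2, uc E.c.u v.1.1.2, uc E.x.u v.1.1.2,
      uc E.y.u v.1.1.2, uc E.w.u v.1.1.2⟩ (320 * (v.1.2 : ℕ) + 1120 * (v.2 : ℕ)) := by
  obtain ⟨⟨⟨u, i0⟩, i1⟩, i2⟩ := v
  fin_cases i0 <;> fin_cases i1 <;> fin_cases i2 <;> rfl

/-- digits of the upper triangle -/
def upV (n : Fin 6 → Fin 2 → ℤ) : VF := fun j l => match j, l with
  | 0, 0 => n 0 | 1, 1 => n 1 | 2, 2 => n 2 | 0, 1 => n 3 | 0, 2 => n 4 | 1, 2 => n 5 | _, _ => 0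

theorem upV_add (m n : Fin 6 → Fin 2 → ℤ) : upV (m + n) = upV m + upV n := by
  funext j l
  show upV (m + n) j l = upV m j l + upV n j l
  unfold upV
  split <;> simp

theorem two384 (k : ℕ) : (2 : ℤ) ^ (128 * k) = BB ^ k := by
  rw [pow_mul]
  rfl

theorem PF_up (n : Fin 6 → Fin 2 → ℤ) : PF 1 (upV n) = (n 0 0 + n 0 1 * BB) +
    (n 3 0 + n 3 1 * BB) * BB ^ 3 + (n 4 0 + n 4 1 * BB) * BB ^ 6 + (n 1 0 + n 1 1 * BB) * BB ^ 33 +
    (n 5 0 + n 5 1 * BB) * BB ^ 36 + (n 2 0 + n 2 1 * BB) * BB ^ 66 := by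
  unfold PF
  simp only [sum_range_succ, sum_range_zero, upV]
  simp only [Pi.zero_apply]
  ring

theorem lfS_ok {C p : ℕ} {a b c x y w : ℕ} {n : Fin 6 → Fin 2 → ℤ}
    (ha : ((gt a p MR2 : ℕ) : ℤ) = n 0 0 + n 0 1 * BB) (hb : ((gt b p MR2 : ℕ) : ℤ) = n 1 0 + n 1 1 * BB)
    (hc : ((gt c p MR2 : ℕ) : ℤ) = n 2 0 + n 2 1 * BB) (hx : ((gt x p MR2 : ℕ) : ℤ) = n 3 0 + n 3 1 * BB)
    (hy : ((gt y p MR2 : ℕ) : ℤ) = n 4 0 + n 4 1 * BB) (hw : ((gt w p MR2 : ℕ) : ℤ) = n 5 0 + n 5 1 * BB) :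
    ((lfS C ⟨a, b, c, x, y, w⟩ p : ℕ) : ℤ) = 2 ^ 40 * PF 1 (upV n) + C := by
  have e : lfS C ⟨a, b, c, x, y, w⟩ p = (gt a p MR2 + (gt x p MR2 <<< 384 + (gt y p MR2 <<< 768 +
      (gt b p MR2 <<< 4224 + (gt w p MR2 <<< 4608 + gt c p MR2 <<< 8448))))) <<< 40 + C := rfl
  rw [e]
  simp only [Nat.shiftLeft_eq, Nat.cast_add, Nat.cast_mul, Nat.cast_pow, Nat.cast_ofNat]
  rw [ha, hb, hc, hx, hy, hw, PF_up, show (384 : ℕ) = 128 * 3 from rfl,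
    show (768 : ℕ) = 128 * 6 from rfl, show (4224 : ℕ) = 128 * 33 from rfl,
    show (4608 : ℕ) = 128 * 36 from rfl, show (8448 : ℕ) = 128 * 66 from rfl, two384, two384, two384,
    two384, two384]
  ring

/-! ### arithmetic of packed forms -/

theorem PF_add (X Y : VF) : PF 1 (X + Y) = PF 1 X + PF 1 Y := (PFh 1).map_add X Y
theorem PF_smul (c : ℤ) (X : VF) : PF 1 (c • X) = c * PF 1 X := by
  have h := map_zsmul (PFh 1) c X
  rw [smul_eq_mul] at h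
  exact h

/-- all digits equal -/
def cst (c : ℤ) : VF := fun _ _ _ => c

theorem OH1_z : (OH1 : ℤ) = PF 1 (cst (2 ^ 100)) := by
  rw [OH1_pk, PF_pz (Or.inl rfl), pk_cast]
  exact pz_congr _ _ _ _ fun k _ => by
    unfold gF cst
    push_cast
    rfl

theorem upV_smul (c : ℤ) (n : Fin 6 → Fin 2 → ℤ) : c • upV n = upV (fun i e => c * n i e) := by
  funext j l
  show c • upV n j l = upV (fun i e => c * n i e) j l
  unfold upV
  split <;> (funext e; simp)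

theorem upV_bd {n : Fin 6 → Fin 2 → ℤ} {b : ℤ} (hb : 0 ≤ b) (h : ∀ i e, |n i e| ≤ b) (j l : ℕ)
    (e : Fin 2) : |upV n j l e| ≤ b := by
  unfold upV
  split <;> first | exact h _ _ | (simp; exact hb)

/-- digits of `2 ^ 40 n - c J - l2 Y` -/
def gV (l2 c : ℤ) (n : Fin 6 → Fin 2 → ℤ) (J Y : VF) : VF := (2 ^ 40 : ℤ) • upV n - c • J - l2 • Y
/-- offsets -/
def oV : VF := cst (2 ^ 100) + upV (fun _ _ => 2 ^ 80)

theorem gV_apply (l2 c : ℤ) (n : Fin 6 → Fin 2 → ℤ) (J Y : VF) (i j : ℕ) (e : Fin 2) :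
    gV l2 c n J Y i j e = 2 ^ 40 * upV n i j e - c * J i j e - l2 * Y i j e := rfl

theorem gV_bd {l2 c : ℤ} {n : Fin 6 → Fin 2 → ℤ} {J Y : VF} (hn : ∀ i e, |n i e| ≤ 2 ^ 39)
    {i j : ℕ} {e : Fin 2} (hJ : |c * J i j e| ≤ 2 ^ 90) (hY : |l2 * Y i j e| ≤ 2 ^ 92) :
    |gV l2 c n J Y i j e| ≤ 2 ^ 93 := by
  rw [gV_apply]
  have h1 := abs_le.1 (upV_bd (by norm_num) hn i j e)
  have h2 := abs_le.1 hJ
  have h3 := abs_le.1 hY
  rw [abs_le]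
  constructor <;> linarith

theorem oV_ge (i j : ℕ) (e : Fin 2) : 2 ^ 100 ≤ oV i j e ∧ oV i j e ≤ 2 ^ 101 := by
  have e0 : oV i j e = 2 ^ 100 + upV (fun _ _ => 2 ^ 80) i j e := rfl
  have h : 0 ≤ upV (fun _ _ => 2 ^ 80) i j e ∧ upV (fun _ _ => 2 ^ 80) i j e ≤ 2 ^ 80 := by
    unfold upV
    split <;> simp
  rw [e0]
  constructor <;> linarith [h.1, h.2]

theorem node_z {l2 : ℕ} {mJ : Z} {c : ℤ} {J : VF} (hJ : zv mJ = c * PF 1 J)
    (hJb : ∀ i < 3, ∀ j < 3, ∀ e, |c * J i j e| ≤ 2 ^ 90) {A B : ℕ} {n : Fin 6 → Fin 2 → ℤ} {Y : VF}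
    (hA : (A : ℤ) = 2 ^ 40 * PF 1 (upV (fun i e => 2 ^ 40 + n i e)) + (kst l2 mJ : ℕ))
    (hB : (B : ℤ) = OC1 + PF 1 Y) (hn : ∀ i e, |n i e| ≤ 2 ^ 39)
    (hY : ∀ i < 3, ∀ j < 3, ∀ e, |(l2 : ℤ) * Y i j e| ≤ 2 ^ 92) :
    ((A - l2 * B : ℕ) : ℤ) = PF 1 (oV + gV l2 c n J Y) := by
  have hz : |zv (zng mJ)| ≤ ((Nat.add (Nat.mul l2 OC1) OH1 : ℕ) : ℤ) := by
    have e1 : ((Nat.add (Nat.mul l2 OC1) OH1 : ℕ) : ℤ) = l2 * OC1 + OH1 := by
      show ((l2 * OC1 + OH1 : ℕ) : ℤ) = _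
      push_cast
      rfl
    have e2 : 0 ≤ PF 1 (cst (2 ^ 100) + c • J) := PF_nonneg 1 fun i hi j hj e => by
      show 0 ≤ 2 ^ 100 + c * J i j e
      have := (abs_le.1 (hJb i hi j hj e)).1
      linarith
    have e3 : 0 ≤ PF 1 (cst (2 ^ 100) + (-c) • J) := PF_nonneg 1 fun i hi j hj e => by
      show 0 ≤ 2 ^ 100 + -c * J i j e
      have := (abs_le.1 (hJb i hi j hj e)).2
      linarith
    rw [PF_add, PF_smul, ← OH1_z] at e2 e3
    have e4 : (0 : ℤ) ≤ l2 * OC1 := mul_nonneg (Int.natCast_nonneg _) (Int.natCast_nonneg _)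
    rw [zv_zng, hJ, abs_le, e1]
    constructor <;> linarith
  have hk : ((kst l2 mJ : ℕ) : ℤ) = l2 * OC1 + OH1 - c * PF 1 J := by
    have e1 : kst l2 mJ = zoff (Nat.add (Nat.mul l2 OC1) OH1) (zng mJ) := rfl
    have e2 : ((Nat.add (Nat.mul l2 OC1) OH1 : ℕ) : ℤ) = l2 * OC1 + OH1 := by
      show ((l2 * OC1 + OH1 : ℕ) : ℤ) = _
      push_cast
      rfl
    rw [e1, zoff_le hz, e2, zv_zng, hJ]
    ring
  have e1 : PF 1 (oV + gV l2 c n J Y) = A - l2 * B := by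
    have h1 : upV (fun i e => 2 ^ 40 + n i e) = upV (fun _ _ => 2 ^ 40) + upV n := by
      rw [← upV_add]
      rfl
    have h2 : PF 1 (upV (fun _ _ => 2 ^ 80)) = 2 ^ 40 * PF 1 (upV (fun _ _ => 2 ^ 40)) := by
      rw [← PF_smul, upV_smul]
      norm_num
    unfold oV gV
    rw [hA, hB, hk, OH1_z, h1, PF_add, PF_add, PF_add, Pool.Agent.Helper17.N9.PF_sub,
      Pool.Agent.Helper17.N9.PF_sub, PF_smul, PF_smul, PF_smul, h2]
    ring
  have e2 : 0 ≤ PF 1 (oV + gV l2 c n J Y) := PF_nonneg 1 fun i hi j hj e => by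
    show 0 ≤ oV i j e + gV l2 c n J Y i j e
    have h1 := (oV_ge i j e).1
    have h2 := (abs_le.1 (gV_bd (J := J) hn (hJb i hi j hj e) (hY i hi j hj e))).1
    linarith
  rw [e1] at e2 ⊢
  have h3 : l2 * B ≤ A := by
    have : ((l2 * B : ℕ) : ℤ) ≤ A := by
      push_cast
      linarith
    exact_mod_cast this
  rw [Nat.cast_sub h3]
  push_cast
  rfl

/-! ### digits -/

theorem gF_add (X Y : VF) (k : ℕ) : gF 1 (X + Y) k = gF 1 X k + gF 1 Y k := by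
  unfold gF
  split
  · rfl
  · simp

theorem gF_bd {X : VF} {b : ℤ} (hX : ∀ i < 3, ∀ j < 3, ∀ e, |X i j e| ≤ b) {k : ℕ} (hk : k < 90)
    (c : ℤ) (hc : c * b ≤ 2 ^ 100) (c0 : 0 ≤ c) : c * |gF 1 X k| ≤ gF 1 oV k := by
  unfold gF
  split
  · rename_i hp
    have h1 := hX (k / 30) (by omega) (k % 30 / 3) hp.1
    have h2 := (oV_ge (k / (30 * 1)) (k % (30 * 1) / (3 * 1)) (if k % (3 * 1) = 0 then 0 else 1)).1
    refine le_trans ?_ h2
    exact (mul_le_mul_of_nonneg_left (h1 _) c0).trans hc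
  · simp

theorem gF_oV (k : ℕ) : 0 ≤ gF 1 oV k ∧ gF 1 oV k ≤ 2 ^ 101 := by
  unfold gF
  split
  · have h := oV_ge (k / (30 * 1)) (k % (30 * 1) / (3 * 1)) (if k % (3 * 1) = 0 then 0 else 1)
    exact ⟨by linarith [h.1], h.2⟩
  · norm_num

/-! ### a control -/

theorem rep_CP : Pool.Agent.Helper17.PAK.Rep M2 CP (-2 ^ 103 - 2 ^ 83) := by
  unfold Pool.Agent.Helper17.PAK.Rep Int.ModEq
  decide +kernel

theorem rep_cR {r : ℕ} (h : r ≤ 2 ^ 60) :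
    Pool.Agent.Helper17.PAK.Rep M2 (cR r) (-2 ^ 103 - 2 ^ 83 - 2 ^ 43 * r) := by
  have hb : (2 : ℕ) ^ 60 * 2 ^ 43 ≤ CP := by decide +kernel
  have e : cR r = CP - r * 2 ^ 43 := by
    show CP - r <<< 43 = _
    rw [Nat.shiftLeft_eq]
  have h1 := rep_CP.sub (Pool.Agent.Helper17.PAK.Rep.nat M2 (r * 2 ^ 43))
    ((Nat.mul_le_mul_right _ h).trans hb)
  rw [e]
  have e2 : (-2 ^ 103 - 2 ^ 83 - 2 ^ 43 * (r : ℤ)) = -2 ^ 103 - 2 ^ 83 - ((r * 2 ^ 43 : ℕ) : ℤ) := by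
    push_cast
    ring
  rw [e2]
  exact h1

theorem lfP_ok {r0 r1 r2 X : ℕ} (h0 : r0 ≤ 2 ^ 60) (h1 : r1 ≤ 2 ^ 60) (h2 : r2 ≤ 2 ^ 60)
    {a g : ℕ → ℤ} (hX : (X : ℤ) = pz BB 90 (fun k => a k + g k))
    (hp : ∀ k < 90, 0 ≤ a k + g k) (hq : ∀ k < 90, a k + g k < 2 ^ 128)
    (ha : ∀ k, k = 0 ∨ k = 3 ∨ k = 4 ∨ k = 6 ∨ k = 7 ∨ k = 33 ∨ k = 36 ∨ k = 37 ∨ k = 66 →
      a k = 2 ^ 103 + 2 ^ 83) (hg : ∀ k < 90, |g k| ≤ 2 ^ 102)
    (h : lfP (cR r0) (cR r1) (cR r2) X = true) (v : V3) :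
    0 ≤ hr (hM ((g 0 : ℝ) - 2 ^ 43 * r0) ((g 33 : ℝ) - 2 ^ 43 * r1) ((g 66 : ℝ) - 2 ^ 43 * r2)
      (g 3) (g 4) (g 6) (g 7) (g 36) (g 37)) v := by
  have hb : ∀ k < 90, (a k + g k).toNat < 2 ^ 128 := fun k hk => by
    have h2 : ((a k + g k).toNat : ℤ) = a k + g k := Int.toNat_of_nonneg (hp k hk)
    have h3 : ((a k + g k).toNat : ℤ) < 2 ^ 128 := by rw [h2]; exact hq k hk
    exact_mod_cast h3
  have hd : ∀ k < 90, ∀ o, o = 128 * k → ((dgt X o : ℕ) : ℤ) = a k + g k := by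
    intro k hk o ho
    rw [dgt_eq hb hk (toNat_pk hX hp) ho]
    exact Int.toNat_of_nonneg (hp k hk)
  have rd : ∀ k < 90, ∀ o, o = 128 * k →
      Pool.Agent.Helper17.PAK.Rep M2 (dgt X o) (a k + g k) := by
    intro k hk o ho
    rw [← hd k hk o ho]
    exact Pool.Agent.Helper17.PAK.Rep.nat _ _
  have rM : ∀ k < 90, a k = 2 ^ 103 + 2 ^ 83 → ∀ o, o = 128 * k →
      Pool.Agent.Helper17.PAK.Rep M2 (Nat.add (dgt X o) CP) (g k) := by
    intro k hk hak o ho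
    have h1 := (rd k hk o ho).add rep_CP
    rwa [hak, show (2 ^ 103 + 2 ^ 83 + g k + (-2 ^ 103 - 2 ^ 83) : ℤ) = g k by ring] at h1
  have rR : ∀ k < 90, a k = 2 ^ 103 + 2 ^ 83 → ∀ o, o = 128 * k → ∀ r : ℕ, r ≤ 2 ^ 60 →
      Pool.Agent.Helper17.PAK.Rep M2 (Nat.add (dgt X o) (cR r)) (g k - 2 ^ 43 * r) := by
    intro k hk hak o ho r hr
    have h1 := (rd k hk o ho).add (rep_cR hr)
    rwa [hak, show (2 ^ 103 + 2 ^ 83 + g k + (-2 ^ 103 - 2 ^ 83 - 2 ^ 43 * (r : ℤ)) : ℤ) =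
      g k - 2 ^ 43 * r by ring] at h1
  have k1 := Pool.Agent.Helper17.PAK.psd1_sound
    (N := ⟨g 0 - 2 ^ 43 * r0, g 33 - 2 ^ 43 * r1, g 66 - 2 ^ 43 * r2, g 3, g 4, g 6, g 7, g 36, g 37⟩)
    (rR 0 (by norm_num) (ha 0 (by simp)) 0 rfl r0 h0)
    (rR 33 (by norm_num) (ha 33 (by simp)) 4224 rfl r1 h1)
    (rR 66 (by norm_num) (ha 66 (by simp)) 8448 rfl r2 h2)
    (rM 3 (by norm_num) (ha 3 (by simp)) 384 rfl) (rM 4 (by norm_num) (ha 4 (by simp)) 512 rfl)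
    (rM 6 (by norm_num) (ha 6 (by simp)) 768 rfl) (rM 7 (by norm_num) (ha 7 (by simp)) 896 rfl)
    (rM 36 (by norm_num) (ha 36 (by simp)) 4608 rfl) (rM 37 (by norm_num) (ha 37 (by simp)) 4736 rfl)
    ?_ h
  · have k2 := Pool.Agent.Helper17.PAK.PDz_ev k1 v
    have e := hr_hM ((g 0 - 2 ^ 43 * r0 : ℤ) : ℝ) ((g 33 - 2 ^ 43 * r1 : ℤ) : ℝ)
      ((g 66 - 2 ^ 43 * r2 : ℤ) : ℝ) (g 3) (g 4) (g 6) (g 7) (g 36) (g 37) v
    simp only [Pool.Agent.Helper17.PAK.sc, div_one] at k2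
    rw [← e] at k2
    push_cast at k2
    have e39 : (2 : ℝ) ^ 43 = 8796093022208 := by norm_num
    rw [e39]
    exact k2
  · have k2 : ∀ k < 90, |g k| ≤ 2 ^ 256 := fun k hk => (hg k hk).trans (by norm_num)
    have k3 : ∀ k < 90, ∀ r : ℕ, r ≤ 2 ^ 60 → |g k - 2 ^ 43 * r| ≤ 2 ^ 256 := fun k hk r hr => by
      have h1 := abs_le.1 (hg k hk)
      have h2 : (r : ℤ) ≤ 2 ^ 60 := by exact_mod_cast hr
      have h3 : (0 : ℤ) ≤ r := Int.natCast_nonneg _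
      rw [abs_le]
      constructor <;> linarith
    exact ⟨k3 0 (by norm_num) r0 h0, k3 33 (by norm_num) r1 h1, k3 66 (by norm_num) r2 h2,
      k2 3 (by norm_num), k2 4 (by norm_num), k2 6 (by norm_num), k2 7 (by norm_num),
      k2 36 (by norm_num), k2 37 (by norm_num)⟩

/-! ### hermitian forms -/

theorem hM_exp (a b c x x' y y' w w' : ℝ) (v : V3) : hr (hM a b c x x' y y' w w') v =
    a * Complex.normSq (v 0) + b * Complex.normSq (v 1) + c * Complex.normSq (v 2) +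
      x * (2 * ((v 0).re * (v 1).re + (v 0).im * (v 1).im)) +
      x' * (-2 * ((v 0).re * (v 1).im - (v 0).im * (v 1).re)) +
      y * (2 * ((v 0).re * (v 2).re + (v 0).im * (v 2).im)) +
      y' * (-2 * ((v 0).re * (v 2).im - (v 0).im * (v 2).re)) +
      w * (2 * ((v 1).re * (v 2).re + (v 1).im * (v 2).im)) +
      w' * (-2 * ((v 1).re * (v 2).im - (v 1).im * (v 2).re)) := by
  rw [hr_hM]
  simp only [Pool.Agent.Helper86.CX.ev]
  simp only [Complex.mul_re, Complex.add_re, Complex.mul_im, Complex.add_im, Complex.ofReal_re,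
    Complex.ofReal_im, Complex.I_re, Complex.I_im, Complex.conj_re, Complex.conj_im]
  ring

theorem co_exp (v : V3) : co v 0 = Complex.normSq (v 0) ∧ co v 1 = Complex.normSq (v 1) ∧
    co v 2 = Complex.normSq (v 2) ∧
    co v 3 = 2 * ((v 0).re * (v 1).re + (v 0).im * (v 1).im) ∧
    co v 4 = -2 * ((v 0).re * (v 1).im - (v 0).im * (v 1).re) ∧
    co v 5 = 2 * ((v 0).re * (v 2).re + (v 0).im * (v 2).im) ∧
    co v 6 = -2 * ((v 0).re * (v 2).im - (v 0).im * (v 2).re) ∧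
    co v 7 = 2 * ((v 1).re * (v 2).re + (v 1).im * (v 2).im) ∧
    co v 8 = -2 * ((v 1).re * (v 2).im - (v 1).im * (v 2).re) :=
  ⟨(hM_exp 1 0 0 0 0 0 0 0 0 v).trans (by ring), (hM_exp 0 1 0 0 0 0 0 0 0 v).trans (by ring),
    (hM_exp 0 0 1 0 0 0 0 0 0 v).trans (by ring), (hM_exp 0 0 0 1 0 0 0 0 0 v).trans (by ring),
    (hM_exp 0 0 0 0 1 0 0 0 0 v).trans (by ring), (hM_exp 0 0 0 0 0 1 0 0 0 v).trans (by ring),
    (hM_exp 0 0 0 0 0 0 1 0 0 v).trans (by ring), (hM_exp 0 0 0 0 0 0 0 1 0 v).trans (by ring),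
    (hM_exp 0 0 0 0 0 0 0 0 1 v).trans (by ring)⟩

/-- the hermitian form of the upper triangle -/
def uh (v : V3) (K : Mt) : ℝ := (K 0 0).re * co v 0 + (K 1 1).re * co v 1 + (K 2 2).re * co v 2 +
  (K 0 1).re * co v 3 + (K 0 1).im * co v 4 + (K 0 2).re * co v 5 + (K 0 2).im * co v 6 +
  (K 1 2).re * co v 7 + (K 1 2).im * co v 8

theorem uh_hr {K : Mt} (hK : K.IsHermitian) (v : V3) : hr K v = uh v K := by
  have h : ∀ i j, K j i = star (K i j) := fun i j => (hK.apply j i).symm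
  have e : K = hM (K 0 0).re (K 1 1).re (K 2 2).re (K 0 1).re (K 0 1).im (K 0 2).re (K 0 2).im
      (K 1 2).re (K 1 2).im := by
    have h0 := congrArg Complex.im (h 0 0)
    have h1 := congrArg Complex.im (h 1 1)
    have h2 := congrArg Complex.im (h 2 2)
    simp only [Complex.star_def, Complex.conj_im] at h0 h1 h2
    unfold hM
    ext i j
    fin_cases i <;> fin_cases j <;> apply Complex.ext <;>
      simp [h 0 1, h 0 2, h 1 2] <;> linarith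
  rw [e, hM_co]
  rfl

/-- the same for digits -/
def ud (v : V3) : VF →+ ℝ where
  toFun X := X 0 0 0 * co v 0 + X 1 1 0 * co v 1 + X 2 2 0 * co v 2 + X 0 1 0 * co v 3 +
    X 0 1 1 * co v 4 + X 0 2 0 * co v 5 + X 0 2 1 * co v 6 + X 1 2 0 * co v 7 + X 1 2 1 * co v 8
  map_zero' := by simp
  map_add' X Y := by
    simp only [Pi.add_apply]
    push_cast
    ring

theorem ud_apply (v : V3) (X : VF) : ud v X = X 0 0 0 * co v 0 + X 1 1 0 * co v 1 +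
    X 2 2 0 * co v 2 + X 0 1 0 * co v 3 + X 0 1 1 * co v 4 + X 0 2 0 * co v 5 + X 0 2 1 * co v 6 +
    X 1 2 0 * co v 7 + X 1 2 1 * co v 8 := rfl

theorem ud_uh (v : V3) (X : VF) : ud v X = uh v (mI X) := rfl

theorem ud_avg {w : Vt 3 → ℝ} {X : Vt 3 → VF} {M : Mt}
    (h : ∀ i j : Fin 3, i ≤ j → M i j = avg w (fun u => ef (i : ℕ) (j : ℕ) (X u))) (v : V3) :
    ∑ u, w u * ud v (X u) = uh v M := by
  have hre : ∀ i j : Fin 3, i ≤ j → (M i j).re = ∑ u, w u * (X u i j 0 : ℝ) := fun i j hij => by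
    rw [h i j hij]
    unfold avg
    rw [Complex.re_sum]
    exact sum_congr rfl fun u _ => by
      rw [Complex.re_ofReal_mul]
      rfl
  have him : ∀ i j : Fin 3, i ≤ j → (M i j).im = ∑ u, w u * (X u i j 1 : ℝ) := fun i j hij => by
    rw [h i j hij]
    unfold avg
    rw [Complex.im_sum]
    exact sum_congr rfl fun u _ => by
      rw [Complex.im_ofReal_mul]
      rfl
  unfold uh
  rw [hre 0 0 le_rfl, hre 1 1 le_rfl, hre 2 2 le_rfl, hre 0 1 (by decide), him 0 1 (by decide),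
    hre 0 2 (by decide), him 0 2 (by decide), hre 1 2 (by decide), him 1 2 (by decide)]
  simp only [sum_mul, ← sum_add_distrib]
  refine sum_congr rfl fun u _ => ?_
  rw [ud_apply]
  show _ = w u * (X u 0 0 0 : ℝ) * co v 0 + w u * (X u 1 1 0 : ℝ) * co v 1 +
    w u * (X u 2 2 0 : ℝ) * co v 2 + w u * (X u 0 1 0 : ℝ) * co v 3 + w u * (X u 0 1 1 : ℝ) * co v 4 +
    w u * (X u 0 2 0 : ℝ) * co v 5 + w u * (X u 0 2 1 : ℝ) * co v 6 + w u * (X u 1 2 0 : ℝ) * co v 7 +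
    w u * (X u 1 2 1 : ℝ) * co v 8
  ring

theorem off_bd {p q : ℂ} {D : ℂ} {r : ℝ} (h : ‖D‖ ≤ r) :
    |D.re * (2 * (p.re * q.re + p.im * q.im)) + D.im * (-2 * (p.re * q.im - p.im * q.re))| ≤
      r * (Complex.normSq p + Complex.normSq q) := by
  have hr : 0 ≤ r := (norm_nonneg _).trans h
  have h1 : D.re ^ 2 + D.im ^ 2 ≤ r ^ 2 := by
    have h2 := pow_le_pow_left₀ (norm_nonneg D) h 2
    rw [Complex.sq_norm, Complex.normSq_apply] at h2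
    linarith
  set a := p.re
  set b := p.im
  set c := q.re
  set d := q.im
  have hN : Complex.normSq p + Complex.normSq q = a * a + b * b + (c * c + d * d) := by
    rw [Complex.normSq_apply, Complex.normSq_apply]
  rw [hN]
  have hn : 0 ≤ a * a + b * b + (c * c + d * d) :=
    add_nonneg (add_nonneg (mul_self_nonneg a) (mul_self_nonneg b))
      (add_nonneg (mul_self_nonneg c) (mul_self_nonneg d))
  refine abs_le_of_sq_le_sq ?_ (mul_nonneg hr hn)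
  set x := 2 * (a * c + b * d)
  set y := -2 * (a * d - b * c)
  have h3 : x ^ 2 + y ^ 2 ≤ (a * a + b * b + (c * c + d * d)) ^ 2 := by
    have e : x ^ 2 + y ^ 2 = 4 * ((a * a + b * b) * (c * c + d * d)) := by
      simp only [x, y]
      ring
    rw [e]
    nlinarith [sq_nonneg (a * a + b * b - (c * c + d * d))]
  have h4 : (D.re * x + D.im * y) ^ 2 ≤ (D.re ^ 2 + D.im ^ 2) * (x ^ 2 + y ^ 2) := by
    nlinarith [sq_nonneg (D.re * y - D.im * x)]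
  calc (D.re * x + D.im * y) ^ 2 ≤ (D.re ^ 2 + D.im ^ 2) * (x ^ 2 + y ^ 2) := h4
    _ ≤ r ^ 2 * (a * a + b * b + (c * c + d * d)) ^ 2 :=
        mul_le_mul h1 h3 (by positivity) (by positivity)
    _ = _ := by ring

/-- the error of the upper triangle -/
theorem uh_bd {D : Mt} {ra rb rc rx ry rw : ℝ} (ha : ‖D 0 0‖ ≤ ra) (hb : ‖D 1 1‖ ≤ rb)
    (hc : ‖D 2 2‖ ≤ rc) (hx : ‖D 0 1‖ ≤ rx) (hy : ‖D 0 2‖ ≤ ry) (hw : ‖D 1 2‖ ≤ rw) (v : V3) :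
    |uh v D| ≤ (ra + rx + ry) * co v 0 + (rb + rx + rw) * co v 1 + (rc + ry + rw) * co v 2 := by
  obtain ⟨e0, e1, e2, e3, e4, e5, e6, e7, e8⟩ := co_exp v
  have kx := abs_le.1 (off_bd (p := v 0) (q := v 1) hx)
  have ky := abs_le.1 (off_bd (p := v 0) (q := v 2) hy)
  have kw := abs_le.1 (off_bd (p := v 1) (q := v 2) hw)
  have n0 := Complex.normSq_nonneg (v 0)
  have n1 := Complex.normSq_nonneg (v 1)
  have n2 := Complex.normSq_nonneg (v 2)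
  have da := abs_le.1 ((Complex.abs_re_le_norm (D 0 0)).trans ha)
  have db := abs_le.1 ((Complex.abs_re_le_norm (D 1 1)).trans hb)
  have dc := abs_le.1 ((Complex.abs_re_le_norm (D 2 2)).trans hc)
  have a1 := mul_le_mul_of_nonneg_right da.1 n0
  have a2 := mul_le_mul_of_nonneg_right da.2 n0
  have b1 := mul_le_mul_of_nonneg_right db.1 n1
  have b2 := mul_le_mul_of_nonneg_right db.2 n1
  have c1 := mul_le_mul_of_nonneg_right dc.1 n2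
  have c2 := mul_le_mul_of_nonneg_right dc.2 n2
  unfold uh
  rw [e0, e1, e2, e3, e4, e5, e6, e7, e8, abs_le]
  constructor <;> linarith [kx.1, kx.2, ky.1, ky.2, kw.1, kw.2]

/-! ### the controls -/

theorem gF_abs {X : VF} {b : ℤ} (b0 : 0 ≤ b) (hX : ∀ i < 3, ∀ j < 3, ∀ e, |X i j e| ≤ b) {k : ℕ}
    (hk : k < 90) : |gF 1 X k| ≤ b := by
  unfold gF
  split
  · rename_i hp
    exact hX (k / 30) (by omega) (k % 30 / 3) hp.1 _
  · rw [abs_zero]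
    exact b0

/-- a digit -/
def evJ (i j : ℕ) (e : Fin 2) : VF →+ ℤ where
  toFun X := X i j e
  map_zero' := rfl
  map_add' _ _ := rfl

theorem cn_dig (G : Vt 3 → VF) (u : Vt 3) {k i j : ℕ} {e : Fin 2} (h : ∀ X : VF, gF 1 X k = X i j e) :
    cnI 3 (fun w => gF 1 (G w) k) u = (cnI 3 G u) i j e := by
  have h1 := cnI_map (evJ i j e) 3 G u
  have h2 : (fun w => gF 1 (G w) k) = fun w => evJ i j e (G w) := funext fun w => h (G w)
  rw [h2, ← h1]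
  rfl

theorem oV_val : ∀ k, k = 0 ∨ k = 3 ∨ k = 4 ∨ k = 6 ∨ k = 7 ∨ k = 33 ∨ k = 36 ∨ k = 37 ∨ k = 66 →
    2 ^ 3 * gF 1 oV k = 2 ^ 103 + 2 ^ 83 := by
  rintro k (rfl | rfl | rfl | rfl | rfl | rfl | rfl | rfl | rfl) <;> decide +kernel

theorem core {l2 : ℕ} {mJ : Z} {c : ℤ} {J : VF} {E : E6} {K : Tr (Tr (Tr ℕ))}
    {n : Vt 3 → Fin 6 → Fin 2 → ℤ} {Y : Vt 3 → VF}
    (hE : ∀ v, ((lv3 (trE6 (kst l2 mJ) E) v : ℕ) : ℤ) =
      2 ^ 40 * PF 1 (upV (fun i e => 2 ^ 40 + n v i e)) + (kst l2 mJ : ℕ))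
    (hK : ∀ v, ((lv3 K v : ℕ) : ℤ) = OC1 + PF 1 (Y v)) (hJ : zv mJ = c * PF 1 J)
    (hJb : ∀ i < 3, ∀ j < 3, ∀ e, |c * J i j e| ≤ 2 ^ 90) (hn : ∀ v i e, |n v i e| ≤ 2 ^ 39)
    (hY : ∀ v, ∀ i < 3, ∀ j < 3, ∀ e, |(l2 : ℤ) * Y v i j e| ≤ 2 ^ 92)
    {r0 r1 r2 : ℕ} (h0 : r0 ≤ 2 ^ 60) (h1 : r1 ≤ 2 ^ 60) (h2 : r2 ≤ 2 ^ 60)
    (h : tG1 (cR r0) (cR r1) (cR r2) l2 (kst l2 mJ) E K = true) {t : ℕ → ℝ} (hP : PT 3 t) (v : V3) :
    2 ^ 40 * (r0 * co v 0 + r1 * co v 1 + r2 * co v 2) ≤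
      ∑ w, ndw 3 t w * ud v (gV l2 c (n w) J (Y w)) := by
  set G : Vt 3 → VF := fun w => gV l2 c (n w) J (Y w) with hG
  have hGb : ∀ w, ∀ i < 3, ∀ j < 3, ∀ e, |G w i j e| ≤ 2 ^ 93 := fun w i hi j hj e =>
    gV_bd (hn w) (hJb i hi j hj e) (hY w i hi j hj e)
  have hx : ∀ w, ((lv3 (Tl3.sb (trE6 (kst l2 mJ) E) (mp3 (Nat.mul l2) K)) w : ℕ) : ℤ) =
      pz BB 90 (fun k => gF 1 oV k + gF 1 (G w) k) := by
    intro w
    rw [Tl3_ok.sb, lv3_mp3]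
    have e1 := node_z hJ hJb (hE w) (hK w) (hn w) (hY w)
    have e2 : pz BB 90 (fun k => gF 1 oV k + gF 1 (G w) k) = PF 1 (oV + G w) := by
      rw [PF_pz (Or.inl rfl)]
      exact pz_congr _ _ _ _ fun k _ => (gF_add oV (G w) k).symm
    rw [e2]
    exact e1
  have hc := Tl3_ok.cn _ 90 (gF 1 oV) (fun w k => gF 1 (G w) k) hx (fun w k hk =>
    gF_bd (hGb w) hk (3 ^ 3) (by norm_num) (by norm_num))
  have hal := Tl3_ok.al _ _ h
  have h4 : ∀ u : Vt 3, 2 ^ 43 * (r0 * co v 0 + r1 * co v 1 + r2 * co v 2) ≤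
      cnI 3 (fun w => ud v (G w)) u := by
    intro u
    have k1 := lfP_ok h0 h1 h2 (a := fun k => 2 ^ 3 * gF 1 oV k)
      (g := fun k => cnI 3 (fun w => gF 1 (G w) k) u) (hc u) ?_ ?_ oV_val ?_ (hal u) v
    · rw [hM_co] at k1
      have k2 := cnI_map (ud v) 3 G u
      rw [← k2, ud_apply]
      rw [cn_dig G u (k := 0) (i := 0) (j := 0) (e := 0) (fun X => gF_0 (i := 0) (l := 0) (Or.inl rfl) (by norm_num) X),
        cn_dig G u (k := 33) (i := 1) (j := 1) (e := 0) (fun X => gF_0 (i := 1) (l := 1) (Or.inl rfl) (by norm_num) X),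
        cn_dig G u (k := 66) (i := 2) (j := 2) (e := 0) (fun X => gF_0 (i := 2) (l := 2) (Or.inl rfl) (by norm_num) X),
        cn_dig G u (k := 3) (i := 0) (j := 1) (e := 0) (fun X => gF_0 (i := 0) (l := 1) (Or.inl rfl) (by norm_num) X),
        cn_dig G u (k := 4) (i := 0) (j := 1) (e := 1) (fun X => gF_1 (i := 0) (l := 1) (Or.inl rfl) (by norm_num) X),
        cn_dig G u (k := 6) (i := 0) (j := 2) (e := 0) (fun X => gF_0 (i := 0) (l := 2) (Or.inl rfl) (by norm_num) X),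
        cn_dig G u (k := 7) (i := 0) (j := 2) (e := 1) (fun X => gF_1 (i := 0) (l := 2) (Or.inl rfl) (by norm_num) X),
        cn_dig G u (k := 36) (i := 1) (j := 2) (e := 0) (fun X => gF_0 (i := 1) (l := 2) (Or.inl rfl) (by norm_num) X),
        cn_dig G u (k := 37) (i := 1) (j := 2) (e := 1) (fun X => gF_1 (i := 1) (l := 2) (Or.inl rfl) (by norm_num) X)] at k1
      linarith
    · intro k hk
      have o := gF_oV k
      have e1 : ∀ w, |gF 1 (G w) k| ≤ gF 1 oV k / 27 := fun w => by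
        have := gF_bd (hGb w) hk 27 (by norm_num) (by norm_num)
        rw [Int.le_ediv_iff_mul_le (by norm_num)]
        linarith
      have e2 := abs_le.1 (cnI_leM 3 (fun w => gF 1 (G w) k) _ e1 u)
      have e3 : gF 1 oV k / 27 * 27 ≤ gF 1 oV k := Int.ediv_mul_le _ (by norm_num)
      show 0 ≤ 2 ^ 3 * gF 1 oV k + cnI 3 (fun w => gF 1 (G w) k) u
      linarith [e2.1]
    · intro k hk
      have o := gF_oV k
      have e2 := abs_le.1 (cnI_leM 3 (fun w => gF 1 (G w) k) _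
        (fun w => gF_abs (by norm_num) (hGb w) hk) u)
      show 2 ^ 3 * gF 1 oV k + cnI 3 (fun w => gF 1 (G w) k) u < 2 ^ 128
      linarith [e2.2, o.2]
    · intro k hk
      have e2 := cnI_leM 3 (fun w => gF 1 (G w) k) _ (fun w => gF_abs (by norm_num) (hGb w) hk) u
      exact e2.trans (by norm_num)
  have h5 : ∑ u, wtT 3 t u * (2 ^ 43 * (r0 * co v 0 + r1 * co v 1 + r2 * co v 2)) ≤
      ∑ u, wtT 3 t u * cnI 3 (fun w => ud v (G w)) u :=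
    sum_le_sum fun u _ => mul_le_mul_of_nonneg_left (h4 u) (hP.w.nonneg u)
  rw [cn_avgR, ← sum_mul, hP.w.sum] at h5
  linarith

theorem uh_sub (v : V3) (K L : Mt) : uh v (K - L) = uh v K - uh v L := by
  unfold uh
  simp only [Matrix.sub_apply, Complex.sub_re, Complex.sub_im]
  ring

theorem uh_smul (v : V3) (c : ℝ) (K : Mt) : uh v ((c : ℂ) • K) = c * uh v K := by
  unfold uh
  simp only [Matrix.smul_apply, smul_eq_mul, Complex.re_ofReal_mul, Complex.im_ofReal_mul]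
  ring

theorem J1_herm : J1.IsHermitian := by
  rw [Pool.Agent.Helper38.FI.J1_hM]
  exact Pool.Agent.Helper17.N9.hM_herm _ _ _ _ _ _ _ _ _

theorem zv_ab {m : Z} (h : zab m ≤ 2 ^ 48) : |zv m| ≤ 2 ^ 48 := by
  cases m with
  | p n =>
    show |(n : ℤ)| ≤ _
    rw [abs_of_nonneg (by positivity)]
    exact_mod_cast h
  | m n =>
    show |-(n : ℤ)| ≤ _
    rw [abs_neg, abs_of_nonneg (by positivity)]
    exact_mod_cast h

theorem hr_frR {f : Fr} (hs : f.s = 2 ^ 36) (K : Mt) (u : V3) :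
    hr ((frR f)ᴴ * K * frR f) u = hr ((C9M f.c)ᴴ * K * C9M f.c) u / 2 ^ 24 := by
  have e : ‖((f.s : ℂ) / UU)‖ ^ 2 = 1 / 2 ^ 24 := by
    rw [hs, norm_div, Complex.norm_natCast, Complex.norm_real]
    unfold UU
    norm_num
  rw [hr_cong, hr_cong, frR, Matrix.smul_mulVec, Pool.Agent.Helper82.TST.hr_smulv, e]
  ring

end RG

/-- **THE TEST OF TWO FORMS IS SOUND** -/
theorem tS_ok {t : ℕ → ℝ} (hP : PT 3 t) {n : ℕ} (hn : n ≤ 16) {F : Mt} (hF : F.IsHermitian)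
    {X : H6} (hX : HO n t F X) {k : ℕ} (hk : k ≤ 6) {f : Fr} {K : Kf} (ho : okS f K = true)
    {l : ℕ} {m : Z} (hm : okM l m = true) (h : tS k f K l m X = true) (u : V3) :
    k * (l * hr ((frR f)ᴴ * KfM K t * frR f) u + zv m / UU * hr J1 ((C9M f.c).mulVec u)) ≤
      1048576 * hr F u := by
  obtain ⟨o1, ho⟩ := andB_t ho
  obtain ⟨o2, o3⟩ := andB_t ho
  obtain ⟨m1, m2⟩ := andB_t hm
  have hs : f.s = 2 ^ 36 := Nat.eq_of_beq_eq_true o1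
  have hl : l ≤ 2 ^ 36 := Nat.le_of_ble_eq_true m1
  have hz : zab m ≤ 2 ^ 48 := Nat.le_of_ble_eq_true m2
  obtain ⟨h1, h⟩ := andB_t h
  obtain ⟨h2, h3⟩ := andB_t h
  obtain ⟨ea, h1⟩ := andB_t h1
  obtain ⟨eb, h1⟩ := andB_t h1
  obtain ⟨ec, h1⟩ := andB_t h1
  obtain ⟨ex, h1⟩ := andB_t h1
  obtain ⟨ey, ew⟩ := andB_t h1
  obtain ⟨na, da, ba, fa⟩ := en_ok hn (Nat.zero_le 20) hP hX.a ea
  obtain ⟨nb, db, bb, fb⟩ := en_ok hn (Nat.zero_le 20) hP hX.b eb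
  obtain ⟨nc, dc, bc, fc⟩ := en_ok hn (Nat.zero_le 20) hP hX.c ec
  obtain ⟨nx, dx, bx, fx⟩ := en_ok hn (Nat.zero_le 20) hP hX.x ex
  obtain ⟨ny, dy, by', fy⟩ := en_ok hn (Nat.zero_le 20) hP hX.y ey
  obtain ⟨nw, dw', bw, fw⟩ := en_ok hn (Nat.zero_le 20) hP hX.w ew
  obtain ⟨J, hJ, mJ, bJ⟩ := soJ_ok o2
  obtain ⟨Y, hY, bY, aY⟩ := soK_ok o2 o3
  set nn : Vt 3 → Fin 6 → Fin 2 → ℤ := fun v => ![na v, nb v, nc v, nx v, ny v, nw v] with hnn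
  have bn : ∀ v i e, |nn v i e| ≤ 2 ^ 39 := by
    intro v i e
    fin_cases i
    exacts [ba v e, bb v e, bc v e, bx v e, by' v e, bw v e]
  have hE : ∀ (C : ℕ) v, ((lv3 (trE6 C (e6 X)) v : ℕ) : ℤ) =
      2 ^ 40 * PF 1 (RG.upV (fun i e => 2 ^ 40 + nn v i e)) + C := by
    intro C v
    rw [RG.lv3_trE6]
    exact RG.lfS_ok (da v) (db v) (dc v) (dx v) (dy v) (dw' v)
  have zm := RG.zv_ab hz
  have hk' : (k : ℤ) ≤ 6 := by exact_mod_cast hk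
  have k0 : (0 : ℤ) ≤ k := Int.natCast_nonneg _
  have hl' : (l : ℤ) ≤ 2 ^ 36 := by exact_mod_cast hl
  have l0 : (0 : ℤ) ≤ l := Int.natCast_nonneg _
  have hc1 : |(k : ℤ) * zv m| ≤ 6 * 2 ^ 48 := by
    rw [abs_mul, abs_of_nonneg k0]
    exact mul_le_mul hk' zm (abs_nonneg _) (by norm_num)
  have hc2 : ∀ i < 3, ∀ j < 3, ∀ e, |(k : ℤ) * zv m * J i j e| ≤ 2 ^ 90 := by
    intro i hi j hj e
    rw [abs_mul]
    exact (mul_le_mul hc1 (bJ i hi j hj e) (abs_nonneg _) (by norm_num)).trans (by norm_num)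
  have hl2 : ((Nat.mul (Nat.add k k) l : ℕ) : ℤ) = 2 * k * l := by
    show (((k + k) * l : ℕ) : ℤ) = _
    push_cast
    ring
  have hY2 : ∀ v, ∀ i < 3, ∀ j < 3, ∀ e, |((Nat.mul (Nat.add k k) l : ℕ) : ℤ) * Y v i j e| ≤ 2 ^ 92 := by
    intro v i hi j hj e
    have e1 : |(2 * k * l : ℤ)| ≤ 2 * 6 * 2 ^ 36 := by
      rw [abs_of_nonneg (by positivity)]
      exact mul_le_mul (by linarith) hl' l0 (by norm_num)
    rw [hl2, abs_mul]
    exact (mul_le_mul e1 (bY v i hi j hj e) (abs_nonneg _) (by norm_num)).trans (by norm_num)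
  have hmJ : zv (Z.mul (Z.mul (Z.p k) m) (fmJ Lc1 (soB f.c))) = k * zv m * PF 1 J := by
    rw [zv_mul, zv_mul, zv_p, hJ]
  have h2' : ((e6 X).a.r + ((e6 X).x.r + (e6 X).y.r)) + (((e6 X).b.r + ((e6 X).x.r + (e6 X).w.r)) +
      ((e6 X).c.r + ((e6 X).y.r + (e6 X).w.r))) ≤ 2 ^ 60 := Nat.le_of_ble_eq_true h2
  have q0 : (e6 X).a.r + ((e6 X).x.r + (e6 X).y.r) ≤ 2 ^ 60 := by omega
  have q1 : (e6 X).b.r + ((e6 X).x.r + (e6 X).w.r) ≤ 2 ^ 60 := by omega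
  have q2 : (e6 X).c.r + ((e6 X).y.r + (e6 X).w.r) ≤ 2 ^ 60 := by omega
  have key := RG.core (n := nn) (hE _) hY hmJ hc2 bn hY2 q0 q1 q2 h3 hP u
  -- the average of the parts
  set M1 : Mt := Matrix.of fun i j => avg (ndw 3 t) (fun w => ef (i : ℕ) (j : ℕ) (RG.upV (nn w)))
    with hM1
  have s1 : ∑ w, ndw 3 t w * RG.ud u (RG.upV (nn w)) = RG.uh u M1 := RG.ud_avg (fun _ _ _ => rfl) u
  have hKh : ((C9M f.c)ᴴ * KfM K t * C9M f.c).IsHermitian :=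
    Matrix.isHermitian_conjTranspose_mul_mul _ (KfM_herm K t)
  have hJh : ((C9M f.c)ᴴ * J1 * C9M f.c).IsHermitian :=
    Matrix.isHermitian_conjTranspose_mul_mul _ RG.J1_herm
  have s2 : ∑ w, ndw 3 t w * RG.ud u (Y w) = 2 ^ 23 * hr ((C9M f.c)ᴴ * KfM K t * C9M f.c) u := by
    have e1 : ∑ w, ndw 3 t w * RG.ud u (Y w) =
        RG.uh u (((2 ^ 23 : ℝ) : ℂ) • ((C9M f.c)ᴴ * KfM K t * C9M f.c)) :=
      RG.ud_avg (fun i j _ => by
        rw [← aY t i j, Matrix.smul_apply, smul_eq_mul]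
        push_cast
        rfl) u
    rw [e1, RG.uh_smul, RG.uh_hr hKh]
  have s3 : RG.ud u J = hr J1 ((C9M f.c).mulVec u) := by
    rw [RG.ud_uh, mJ, ← RG.uh_hr hJh, hr_cong]
  have s4 : ∑ w, ndw 3 t w * RG.ud u (RG.gV ((Nat.mul (Nat.add k k) l : ℕ) : ℤ) (k * zv m) (nn w) J (Y w)) =
      2 ^ 40 * RG.uh u M1 - k * zv m * hr J1 ((C9M f.c).mulVec u) -
        2 * k * l * (2 ^ 23 * hr ((C9M f.c)ᴴ * KfM K t * C9M f.c) u) := by
    have e1 : ∀ w, RG.ud u (RG.gV ((Nat.mul (Nat.add k k) l : ℕ) : ℤ) (k * zv m) (nn w) J (Y w)) =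
        2 ^ 40 * RG.ud u (RG.upV (nn w)) - k * zv m * RG.ud u J - 2 * k * l * RG.ud u (Y w) := by
      intro w
      unfold RG.gV
      rw [map_sub, map_sub, map_zsmul, map_zsmul, map_zsmul, hl2]
      simp only [zsmul_eq_mul]
      push_cast
      ring
    rw [← s1, ← s2, ← s3]
    have e2 : (k : ℝ) * zv m * RG.ud u J = ∑ w, ndw 3 t w * (k * zv m * RG.ud u J) := by
      rw [← sum_mul, Pool.Agent.Helper17.N9.ndw_sum, one_mul]
    rw [e2, mul_sum, mul_sum, ← sum_sub_distrib, ← sum_sub_distrib]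
    refine sum_congr rfl fun w _ => ?_
    rw [e1]
    ring
  -- the error
  have h28 : ∀ z : ℂ, (2 ^ 28 / 2 ^ 0 : ℂ) * z = ((2 ^ 28 : ℝ) : ℂ) * z := fun z => by
    push_cast
    ring
  rw [h28] at fa fb fc fx fy fw
  have s5 := RG.uh_bd (D := ((2 ^ 28 : ℝ) : ℂ) • F - M1) fa fb fc fx fy fw u
  rw [RG.uh_sub, RG.uh_smul, ← RG.uh_hr hF] at s5
  have s6 := (abs_le.1 s5).1
  rw [s4] at key
  push_cast at key
  rw [RG.hr_frR hs]
  have hU : UU = 2 ^ 48 := by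
    unfold UU
    norm_num
  rw [hU]
  have s7 : -(((((e6 X).a.r : ℕ) : ℝ) + (((e6 X).x.r : ℕ) : ℝ) + (((e6 X).y.r : ℕ) : ℝ)) * co u 0 +
      ((((e6 X).b.r : ℕ) : ℝ) + (((e6 X).x.r : ℕ) : ℝ) + (((e6 X).w.r : ℕ) : ℝ)) * co u 1 +
      ((((e6 X).c.r : ℕ) : ℝ) + (((e6 X).y.r : ℕ) : ℝ) + (((e6 X).w.r : ℕ) : ℝ)) * co u 2) ≤
      2 ^ 28 * hr F u - RG.uh u M1 := s6
  have s8 := mul_le_mul_of_nonneg_left s7 (show (0 : ℝ) ≤ 2 ^ 40 by norm_num)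
  have s9 : k * l * (2 ^ 24 * hr ((C9M f.c)ᴴ * KfM K t * C9M f.c) u) +
      k * zv m * hr J1 ((C9M f.c).mulVec u) ≤ 2 ^ 68 * hr F u := by
    linarith
  have e1 : k * (l * (hr ((C9M f.c)ᴴ * KfM K t * C9M f.c) u / 2 ^ 24) +
      zv m / 2 ^ 48 * hr J1 ((C9M f.c).mulVec u)) =
      (k * l * (2 ^ 24 * hr ((C9M f.c)ᴴ * KfM K t * C9M f.c) u) +
      k * zv m * hr J1 ((C9M f.c).mulVec u)) / 2 ^ 48 := by
    ring
  rw [e1, div_le_iff₀ (by norm_num)]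
  refine s9.trans (le_of_eq ?_)
  ring

end Pool.Agent.Helper21.FX
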